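import Mathlib

/-!
# Convex partitions of 11 points: `G 11 ≥ 4`

Explicit set of 11 points in general position in the plane with no convex partition into
three or fewer parts.
-/

set_option autoImplicit false

namespace Pool.Agent.Results.MP_062f91_co.ElevenPoints

/-- The Euclidean plane. -/
abbrev Plane : Type := EuclideanSpace ℝ (Fin 2)

/-- No three distinct points of `X` are collinear. -/
def GeneralPosition (X : Finset Plane) : Prop :=
  ∀ a ∈ X, ∀ b ∈ X, ∀ c ∈ X, a ≠ b → a ≠ c → b ≠ c → ¬ Collinear ℝ ({a, b, c} : Set Plane)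

/-- `Y` is the vertex set of a (possibly degenerate) convex polygon: every point of `Y` is a
vertex (extreme point) of the convex hull of `Y`. -/
def IsVertexSet (Y : Finset Plane) : Prop :=
  ∀ y ∈ Y, y ∈ Set.extremePoints ℝ (convexHull ℝ (Y : Set Plane))

/-- `P` is a convex partition of `X`: the members of `P` are nonempty, their union is `X`, each is
the vertex set of a convex polygon, and the convex hulls of distinct members are disjoint
(so distinct members are disjoint as well). The number of parts is `P.card`. -/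
structure IsConvexPartition (X : Finset Plane) (P : Finset (Finset Plane)) : Prop where
  nonempty : ∀ Y ∈ P, Y.Nonempty
  union_eq : P.biUnion id = X
  vertexSet : ∀ Y ∈ P, IsVertexSet Y
  disjoint_hulls : ∀ Y ∈ P, ∀ Z ∈ P, Y ≠ Z →
    Disjoint (convexHull ℝ (Y : Set Plane)) (convexHull ℝ (Z : Set Plane))

/-- `G n` is the smallest `k` such that every `n`-point set in general position has a convex
partition with `k` parts. -/
noncomputable def G (n : ℕ) : ℕ :=
  sInf {k : ℕ | ∀ X : Finset Plane, X.card = n → GeneralPosition X →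
    ∃ P : Finset (Finset Plane), P.card = k ∧ IsConvexPartition X P}

/-! ### Orientations of integer points -/

/-- Twice the signed area of the triangle `a b c`. -/
def det (a b c : ℤ × ℤ) : ℤ :=
  (b.1 - a.1) * (c.2 - a.2) - (b.2 - a.2) * (c.1 - a.1)

/-- An integer point as a point of the plane. -/
noncomputable def pt (z : ℤ × ℤ) : Plane := !₂[(z.1 : ℝ), (z.2 : ℝ)]

@[simp] lemma pt_zero (z : ℤ × ℤ) : pt z 0 = (z.1 : ℝ) := by simp [pt]
@[simp] lemma pt_one (z : ℤ × ℤ) : pt z 1 = (z.2 : ℝ) := by simp [pt]

lemma pt_injective : Function.Injective pt := by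
  intro a b h
  have h0 := congrArg (fun p : Plane => p 0) h
  have h1 := congrArg (fun p : Plane => p 1) h
  simp at h0 h1
  exact Prod.ext h0 h1

/-- `p` lies strictly inside the triangle `a b c` (all orientations agree). -/
def inTri (p a b c : ℤ × ℤ) : Bool :=
  (decide (0 < det a b p) && decide (0 < det b c p) && decide (0 < det c a p)) ||
  (decide (det a b p < 0) && decide (det b c p < 0) && decide (det c a p < 0))

/-- The segments `a b` and `c d` cross properly. -/
def crosses (a b c d : ℤ × ℤ) : Bool :=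
  decide (det a b c * det a b d < 0) && decide (det c d a * det c d b < 0)

lemma mem_convexHull_triple {p a b c : Plane} {x y z : ℝ} (hx : 0 ≤ x) (hy : 0 ≤ y) (hz : 0 ≤ z)
    (hs : x + y + z = 1) (hp : p = x • a + y • b + z • c) :
    p ∈ convexHull ℝ ({a, b, c} : Set Plane) := by
  have hc : Convex ℝ (convexHull ℝ ({a, b, c} : Set Plane)) := convex_convexHull ℝ _
  have ha : a ∈ convexHull ℝ ({a, b, c} : Set Plane) := subset_convexHull ℝ _ (by simp)
  have hb : b ∈ convexHull ℝ ({a, b, c} : Set Plane) := subset_convexHull ℝ _ (by simp)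
  have hcc : c ∈ convexHull ℝ ({a, b, c} : Set Plane) := subset_convexHull ℝ _ (by simp)
  have := hc.sum_mem (t := (Finset.univ : Finset (Fin 3))) (w := ![x, y, z]) (z := ![a, b, c])
    (by intro i _; fin_cases i <;> simpa) (by simp [Fin.sum_univ_three, hs])
    (by intro i _; fin_cases i <;> simpa)
  rw [hp]
  simpa [Fin.sum_univ_three] using this

lemma inTri_mem {p a b c : ℤ × ℤ} (h : inTri p a b c = true) :
    pt p ∈ convexHull ℝ ({pt a, pt b, pt c} : Set Plane) := by
  have key : ∀ {u v w : ℤ}, u = det b c p → v = det c a p → w = det a b p →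
      (0 < u ∧ 0 < v ∧ 0 < w) ∨ (u < 0 ∧ v < 0 ∧ w < 0) →
      pt p ∈ convexHull ℝ ({pt a, pt b, pt c} : Set Plane) := by
    intro u v w hu hv hw hsign
    have hs : (u : ℝ) + v + w ≠ 0 := by
      rcases hsign with ⟨h1, h2, h3⟩ | ⟨h1, h2, h3⟩
      · have : (0:ℤ) < u + v + w := by omega
        have : (0:ℝ) < (u:ℝ) + v + w := by exact_mod_cast this
        exact this.ne'
      · have : u + v + w < (0:ℤ) := by omega
        have : (u:ℝ) + v + w < 0 := by exact_mod_cast this
        exact this.ne
    have hpos : ∀ t : ℤ, (t = u ∨ t = v ∨ t = w) → (0:ℝ) ≤ (t:ℝ) / ((u:ℝ) + v + w) := by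
      intro t ht
      rcases hsign with ⟨h1, h2, h3⟩ | ⟨h1, h2, h3⟩
      · have h0 : (0:ℤ) < t := by rcases ht with rfl | rfl | rfl <;> assumption
        have hS : (0:ℝ) < (u:ℝ) + v + w := by
          have : (0:ℤ) < u + v + w := by omega
          exact_mod_cast this
        have : (0:ℝ) < (t:ℝ) := by exact_mod_cast h0
        positivity
      · have h0 : t < (0:ℤ) := by rcases ht with rfl | rfl | rfl <;> assumption
        have hS : (u:ℝ) + v + w < 0 := by
          have : u + v + w < (0:ℤ) := by omega
          exact_mod_cast this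
        have : (t:ℝ) < 0 := by exact_mod_cast h0
        exact (div_pos_of_neg_of_neg this hS).le
    refine mem_convexHull_triple (x := (u:ℝ) / ((u:ℝ) + v + w)) (y := (v:ℝ) / ((u:ℝ) + v + w))
      (z := (w:ℝ) / ((u:ℝ) + v + w)) (hpos u (by simp)) (hpos v (by simp)) (hpos w (by simp))
      (by field_simp) ?_
    have e0 : ((u:ℝ) + v + w) * p.1 = u * a.1 + v * b.1 + w * c.1 := by
      subst hu; subst hv; subst hw
      simp only [det]; push_cast; ring
    have e1 : ((u:ℝ) + v + w) * p.2 = u * a.2 + v * b.2 + w * c.2 := by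
      subst hu; subst hv; subst hw
      simp only [det]; push_cast; ring
    ext i
    fin_cases i
    · simp only [Fin.zero_eta, PiLp.add_apply, PiLp.smul_apply, smul_eq_mul, pt_zero]
      field_simp
      linarith
    · simp only [Fin.mk_one, PiLp.add_apply, PiLp.smul_apply, smul_eq_mul, pt_one]
      field_simp
      linarith
  simp only [inTri, Bool.or_eq_true, Bool.and_eq_true, decide_eq_true_eq] at h
  refine key rfl rfl rfl ?_
  rcases h with ⟨⟨h1, h2⟩, h3⟩ | ⟨⟨h1, h2⟩, h3⟩
  · exact Or.inl ⟨h2, h3, h1⟩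
  · exact Or.inr ⟨h2, h3, h1⟩

lemma crosses_inter {a b c d : ℤ × ℤ} (h : crosses a b c d = true) :
    ∃ q : Plane, q ∈ segment ℝ (pt a) (pt b) ∧ q ∈ segment ℝ (pt c) (pt d) := by
  simp only [crosses, Bool.and_eq_true, decide_eq_true_eq] at h
  obtain ⟨h1, h2⟩ := h
  -- parameters along the two segments
  have aux : ∀ {x y : ℤ}, x * y < 0 → ((x:ℝ) - y ≠ 0) ∧ 0 ≤ (x:ℝ) / (x - y) ∧
      0 ≤ -(y:ℝ) / (x - y) := by
    intro x y hxy
    rcases mul_neg_iff.mp hxy with ⟨hx, hy⟩ | ⟨hx, hy⟩
    · have hx' : (0:ℝ) < x := by exact_mod_cast hx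
      have hy' : (y:ℝ) < 0 := by exact_mod_cast hy
      have hd : (0:ℝ) < (x:ℝ) - y := by linarith
      exact ⟨hd.ne', div_nonneg hx'.le hd.le, div_nonneg (by linarith) hd.le⟩
    · have hx' : (x:ℝ) < 0 := by exact_mod_cast hx
      have hy' : (0:ℝ) < y := by exact_mod_cast hy
      have hd : (x:ℝ) - y < 0 := by linarith
      exact ⟨hd.ne, div_nonneg_of_nonpos hx'.le hd.le, div_nonneg_of_nonpos (by linarith) hd.le⟩
  obtain ⟨n1, p1, q1⟩ := aux h1
  obtain ⟨n2, p2, q2⟩ := aux h2
  refine ⟨(-((det c d b : ℤ) : ℝ) / ((det c d a : ℤ) - (det c d b : ℤ))) • pt a +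
      (((det c d a : ℤ) : ℝ) / ((det c d a : ℤ) - (det c d b : ℤ))) • pt b, ?_, ?_⟩
  · exact ⟨_, _, q2, p2, by rw [← add_div]; rw [neg_add_eq_sub]; exact div_self n2, rfl⟩
  · refine ⟨-((det a b d : ℤ) : ℝ) / ((det a b c : ℤ) - (det a b d : ℤ)),
      ((det a b c : ℤ) : ℝ) / ((det a b c : ℤ) - (det a b d : ℤ)), q1, p1,
      by rw [← add_div]; rw [neg_add_eq_sub]; exact div_self n1, ?_⟩
    ext i
    fin_cases i
    · simp only [Fin.zero_eta, PiLp.add_apply, PiLp.smul_apply, smul_eq_mul, pt_zero]
      field_simp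
      simp only [det]; push_cast; ring
    · simp only [Fin.mk_one, PiLp.add_apply, PiLp.smul_apply, smul_eq_mul, pt_one]
      field_simp
      simp only [det]; push_cast; ring

/-! ### The eleven points -/

/-- The coordinates of the eleven points. -/
def coords : List (ℤ × ℤ) :=
  [(4, 1), (1, 4), (-4, 2), (-3, -3), (2, -4), (2, 2), (-1, 3), (-3, 0), (-1, -3), (3, -1), (0, 1)]

/-- The `i`-th point (integer coordinates). -/
def z (i : ℕ) : ℤ × ℤ := coords.getD i (0, 0)

/-- Triangles `{a, b, i}` with `a < b < i` containing one of the eleven points. -/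
def trisAt (i : ℕ) : List (ℕ × ℕ) :=
  ((List.range i).flatMap fun b => (List.range b).map fun a => (a, b)).filter fun t =>
    (List.range 11).any fun p => inTri (z p) (z t.1) (z t.2) (z i)

/-- Segments `{a, i}`, `{c, d}` with `a < i`, `c < d < i` that cross. -/
def crossAt (i : ℕ) : List (ℕ × ℕ × ℕ) :=
  ((List.range i).flatMap fun a => (List.range i).flatMap fun d =>
    (List.range d).map fun c => (a, c, d)).filter fun t =>
      crosses (z t.1) (z i) (z t.2.1) (z t.2.2)

/-- Constraints for each index, computed once. -/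
def table : List (List (ℕ × ℕ) × List (ℕ × ℕ × ℕ)) :=
  (List.range 11).map fun i => (trisAt i, crossAt i)

/-- Given the colours `cs` of the points with index `< i` (as a list, `cs[j]` is the colour of
point `j`) the colour `c` of the point `i` violates no constraint. -/
def okAt (t : List (ℕ × ℕ) × List (ℕ × ℕ × ℕ)) (cs : List ℕ) (c : ℕ) : Bool :=
  t.1.all (fun ab => !(cs.getD ab.1 3 == c && cs.getD ab.2 3 == c)) &&
  t.2.all (fun acd => !(cs.getD acd.1 3 == c && cs.getD acd.2.1 3 == cs.getD acd.2.2 3 &&
    cs.getD acd.2.1 3 != c))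

/-- `refuted ts cs` : no extension of the partial colouring `cs` by colours `0, 1, 2` satisfies the
constraints `ts` of the remaining points. -/
def refuted : List (List (ℕ × ℕ) × List (ℕ × ℕ × ℕ)) → List ℕ → Bool
  | [], _ => false
  | t :: ts, cs =>
    (!(okAt t cs 0) || refuted ts (cs ++ [0])) &&
    (!(okAt t cs 1) || refuted ts (cs ++ [1])) &&
    (!(okAt t cs 2) || refuted ts (cs ++ [2]))


lemma refuted_table : refuted table [] = true := by decide +kernel

lemma mem_trisAt {i a b : ℕ} (h : (a, b) ∈ trisAt i) :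
    a < b ∧ b < i ∧ ∃ p < 11, inTri (z p) (z a) (z b) (z i) = true := by
  simp only [trisAt, List.mem_filter, List.mem_flatMap, List.mem_range, List.mem_map,
    List.any_eq_true, Prod.mk.injEq] at h
  obtain ⟨⟨b', hb', a', ha', rfl, rfl⟩, p, hp, hin⟩ := h
  exact ⟨ha', hb', p, hp, hin⟩

lemma mem_crossAt {i a c d : ℕ} (h : (a, c, d) ∈ crossAt i) :
    a < i ∧ c < d ∧ d < i ∧ crosses (z a) (z i) (z c) (z d) = true := by
  simp only [crossAt, List.mem_filter, List.mem_flatMap, List.mem_range, List.mem_map,
    Prod.mk.injEq] at h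
  obtain ⟨⟨a', ha', d', hd', c', hc', rfl, rfl, rfl⟩, hcr⟩ := h
  exact ⟨ha', hc', hd', hcr⟩

/-- Combinatorial core: no colouring of the indices `0, …, 10` with colours `0, 1, 2` satisfies all
constraints. -/
lemma no_colouring (f : ℕ → ℕ) (hf : ∀ i < 11, f i < 3)
    (h1 : ∀ i < 11, ∀ a b, (a, b) ∈ trisAt i → ¬ (f a = f i ∧ f b = f i))
    (h2 : ∀ i < 11, ∀ a c d, (a, c, d) ∈ crossAt i → ¬ (f a = f i ∧ f c = f d ∧ f c ≠ f i)) :
    False := by
  have key : ∀ m k, k + m = 11 → refuted (table.drop k) ((List.range k).map f) = false := by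
    intro m
    induction m with
    | zero =>
      intro k hk
      have : table.drop k = [] := by
        apply List.drop_eq_nil_of_le
        simp [table]; omega
      rw [this]; rfl
    | succ m ih =>
      intro k hk
      have hk11 : k < 11 := by omega
      have hlen : k < table.length := by simpa [table] using hk11
      have hdrop : table.drop k = (trisAt k, crossAt k) :: table.drop (k + 1) := by
        rw [List.drop_eq_getElem_cons hlen]
        simp [table]
      have hget : ∀ j < k, ((List.range k).map f).getD j 3 = f j := by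
        intro j hj
        simp [List.getD_eq_getElem?_getD, hj]
      have hok : okAt (trisAt k, crossAt k) ((List.range k).map f) (f k) = true := by
        simp only [okAt, Bool.and_eq_true, List.all_eq_true]
        constructor
        · rintro ⟨a, b⟩ hab
          obtain ⟨hab1, hab2, -⟩ := mem_trisAt hab
          have := h1 k hk11 a b hab
          simp only [hget a (by omega), hget b hab2]
          simp only [Bool.not_eq_true', Bool.and_eq_false_iff, beq_eq_false_iff_ne, ne_eq]
          tauto
        · rintro ⟨a, c, d⟩ hacd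
          obtain ⟨ha, hcd, hd, -⟩ := mem_crossAt hacd
          have := h2 k hk11 a c d hacd
          simp only [hget a ha, hget c (by omega), hget d hd]
          simp only [Bool.not_eq_true', Bool.and_eq_false_iff, beq_eq_false_iff_ne, ne_eq,
            bne_eq_false_iff_eq]
          tauto
      have hnext : refuted (table.drop (k + 1)) ((List.range k).map f ++ [f k]) = false := by
        have := ih (k + 1) (by omega)
        rwa [List.range_succ, List.map_append] at this
      have hfk := hf k hk11
      rw [hdrop, refuted]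
      have hcases : f k = 0 ∨ f k = 1 ∨ f k = 2 := by omega
      rcases hcases with h | h | h <;> rw [h] at hok hnext <;> simp [hok, hnext]
  have := key 11 0 (by norm_num)
  simp only [List.drop_zero, List.range_zero, List.map_nil] at this
  rw [refuted_table] at this
  exact Bool.noConfusion this

/-! ### The point set -/

/-- The set of the eleven points in the plane. -/
noncomputable def X : Finset Plane := (Finset.range 11).image fun i => pt (z i)

lemma z_inj : ∀ i < 11, ∀ j < 11, z i = z j → i = j := by decide +kernel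

lemma det_ne' : ∀ i < 11, ∀ j < 11, ∀ k < 11,
    i = j ∨ i = k ∨ j = k ∨ det (z i) (z j) (z k) ≠ 0 := by decide +kernel

lemma det_ne (i : ℕ) (hi : i < 11) (j : ℕ) (hj : j < 11) (k : ℕ) (hk : k < 11)
    (h1 : i ≠ j) (h2 : i ≠ k) (h3 : j ≠ k) : det (z i) (z j) (z k) ≠ 0 := by
  rcases det_ne' i hi j hj k hk with h | h | h | h
  · exact absurd h h1
  · exact absurd h h2
  · exact absurd h h3
  · exact h

lemma card_X : X.card = 11 := by
  rw [X, Finset.card_image_of_injOn]
  · simp
  · intro i hi j hj hij
    simp only [Finset.coe_range, Set.mem_Iio] at hi hj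
    exact z_inj i hi j hj (pt_injective hij)

lemma det_eq_zero_of_collinear {a b c : ℤ × ℤ}
    (h : Collinear ℝ ({pt a, pt b, pt c} : Set Plane)) : det a b c = 0 := by
  rw [collinear_iff_of_mem (p₀ := pt a) (by simp)] at h
  obtain ⟨v, hv⟩ := h
  obtain ⟨r, hr⟩ := hv (pt b) (by simp)
  obtain ⟨s, hs⟩ := hv (pt c) (by simp)
  have r0 := congrArg (fun p : Plane => p 0) hr
  have r1 := congrArg (fun p : Plane => p 1) hr
  have s0 := congrArg (fun p : Plane => p 0) hs
  have s1 := congrArg (fun p : Plane => p 1) hs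
  simp only [vadd_eq_add, PiLp.add_apply, PiLp.smul_apply, smul_eq_mul, pt_zero, pt_one] at r0 r1 s0 s1
  have : ((det a b c : ℤ) : ℝ) = 0 := by
    simp only [det]; push_cast
    rw [r0, r1, s0, s1]; ring
  exact_mod_cast this

lemma generalPosition_X : GeneralPosition X := by
  intro a ha b hb c hc hab hac hbc hcol
  simp only [X, Finset.mem_image, Finset.mem_range] at ha hb hc
  obtain ⟨i, hi, rfl⟩ := ha
  obtain ⟨j, hj, rfl⟩ := hb
  obtain ⟨k, hk, rfl⟩ := hc
  exact det_ne i hi j hj k hk (fun h => hab (by rw [h])) (fun h => hac (by rw [h]))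
    (fun h => hbc (by rw [h])) (det_eq_zero_of_collinear hcol)

lemma not_mem_hull_of_extreme {Y : Set Plane} {y : Plane}
    (h : y ∈ Set.extremePoints ℝ (convexHull ℝ Y)) : y ∉ convexHull ℝ (Y \ {y}) := by
  intro hy
  have hc : Convex ℝ (convexHull ℝ Y \ {y}) :=
    ((convex_convexHull ℝ Y).mem_extremePoints_iff_convex_sdiff.mp h).2
  have hsub : convexHull ℝ (Y \ {y}) ⊆ convexHull ℝ Y \ {y} :=
    convexHull_min (fun w hw => ⟨subset_convexHull ℝ _ hw.1, hw.2⟩) hc
  exact (hsub hy).2 rfl

lemma inTri_ne {p a b c : ℤ × ℤ} (h : inTri p a b c = true) : p ≠ a ∧ p ≠ b ∧ p ≠ c := by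
  refine ⟨?_, ?_, ?_⟩ <;> rintro rfl <;>
    simp [inTri, det, mul_comm] at h

/-- Every convex partition of `X` has at least four parts. -/
theorem four_le_card (P : Finset (Finset Plane)) (hP : IsConvexPartition X P) : 4 ≤ P.card := by
  classical
  by_contra hlt
  have hcard : P.card ≤ 3 := by omega
  have hex : ∀ i, i < 11 → ∃ Y ∈ P, pt (z i) ∈ Y := by
    intro i hi
    have : pt (z i) ∈ P.biUnion id := by
      rw [hP.union_eq]
      exact Finset.mem_image.mpr ⟨i, Finset.mem_range.mpr hi, rfl⟩
    simpa using this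
  choose! Y hYP hY using hex
  set idx : Finset Plane → ℕ := fun S => if h : S ∈ P then (P.equivFin ⟨S, h⟩ : ℕ) else 0 with hidx
  have idx_lt : ∀ S ∈ P, idx S < 3 := by
    intro S hS
    simp only [hidx, hS, dif_pos]
    exact lt_of_lt_of_le (P.equivFin ⟨S, hS⟩).2 hcard
  have idx_inj : ∀ S ∈ P, ∀ T ∈ P, idx S = idx T → S = T := by
    intro S hS T hT hST
    simp only [hidx, hS, hT, dif_pos] at hST
    have := P.equivFin.injective (Fin.ext hST)
    exact congrArg Subtype.val this
  refine no_colouring (fun i => idx (Y i)) (fun i hi => idx_lt _ (hYP i hi)) ?_ ?_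
  · rintro i hi a b hab ⟨h1, h2⟩
    obtain ⟨hab1, hbi, p, hp, hin⟩ := mem_trisAt hab
    have ea : Y a = Y i := idx_inj _ (hYP a (by omega)) _ (hYP i hi) h1
    have eb : Y b = Y i := idx_inj _ (hYP b (by omega)) _ (hYP i hi) h2
    have ma : pt (z a) ∈ Y i := ea ▸ hY a (by omega)
    have mb : pt (z b) ∈ Y i := eb ▸ hY b (by omega)
    have mi : pt (z i) ∈ Y i := hY i hi
    have hmem := inTri_mem hin
    obtain ⟨na, nb, nc⟩ := inTri_ne hin
    by_cases hpi : Y p = Y i
    · have hext := hP.vertexSet (Y i) (hYP i hi) (pt (z p)) (hpi ▸ hY p hp)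
      refine not_mem_hull_of_extreme hext (convexHull_mono ?_ hmem)
      intro w hw
      simp only [Set.mem_insert_iff, Set.mem_singleton_iff] at hw
      rcases hw with rfl | rfl | rfl
      · exact ⟨ma, fun h => na (pt_injective h).symm⟩
      · exact ⟨mb, fun h => nb (pt_injective h).symm⟩
      · exact ⟨mi, fun h => nc (pt_injective h).symm⟩
    · have hdis := hP.disjoint_hulls (Y p) (hYP p hp) (Y i) (hYP i hi) hpi
      refine Set.disjoint_left.mp hdis (subset_convexHull ℝ _ (hY p hp)) (convexHull_mono ?_ hmem)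
      intro w hw
      simp only [Set.mem_insert_iff, Set.mem_singleton_iff] at hw
      rcases hw with rfl | rfl | rfl <;> assumption
  · rintro i hi a c d hacd ⟨h1, h2, h3⟩
    obtain ⟨hai, hcd, hdi, hcr⟩ := mem_crossAt hacd
    have ea : Y a = Y i := idx_inj _ (hYP a (by omega)) _ (hYP i hi) h1
    have ec : Y c = Y d := idx_inj _ (hYP c (by omega)) _ (hYP d (by omega)) h2
    have hne : Y c ≠ Y i := fun h => h3 (by simp only [h])
    obtain ⟨q, hq1, hq2⟩ := crosses_inter hcr
    have hdis := hP.disjoint_hulls (Y c) (hYP c (by omega)) (Y i) (hYP i hi) hne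
    have m1 : q ∈ convexHull ℝ ((Y i : Finset Plane) : Set Plane) :=
      segment_subset_convexHull (ea ▸ hY a (by omega)) (hY i hi) hq1
    have m2 : q ∈ convexHull ℝ ((Y c : Finset Plane) : Set Plane) :=
      segment_subset_convexHull (hY c (by omega)) (ec ▸ hY d (by omega)) hq2
    exact Set.disjoint_left.mp hdis m2 m1

/-- Every finite set has a convex partition into singletons. -/
lemma singletons (S : Finset Plane) :
    ∃ P : Finset (Finset Plane), P.card = S.card ∧ IsConvexPartition S P := by
  classical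
  refine ⟨S.image fun x => {x}, Finset.card_image_of_injective _ Finset.singleton_injective, ?_⟩
  refine ⟨?_, ?_, ?_, ?_⟩
  · intro Y hY
    obtain ⟨x, -, rfl⟩ := Finset.mem_image.mp hY
    exact Finset.singleton_nonempty x
  · ext x; simp
  · intro Y hY
    obtain ⟨x, -, rfl⟩ := Finset.mem_image.mp hY
    intro y hy
    rw [Finset.mem_singleton] at hy
    subst hy
    simp
  · intro Y hY Z hZ hne
    obtain ⟨x, -, rfl⟩ := Finset.mem_image.mp hY
    obtain ⟨y, -, rfl⟩ := Finset.mem_image.mp hZ
    have : x ≠ y := fun h => hne (by rw [h])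
    simpa using this

/-- There are 11 points in general position in the plane all of whose convex partitions have at
least 4 parts. -/
theorem exists_eleven_points :
    ∃ X : Finset Plane, X.card = 11 ∧ GeneralPosition X ∧
      ∀ P : Finset (Finset Plane), IsConvexPartition X P → 4 ≤ P.card :=
  ⟨X, card_X, generalPosition_X, four_le_card⟩

/-- **Main result.** `G 11 ≥ 4`. -/
theorem result : 4 ≤ G 11 := by
  refine le_csInf ⟨11, fun S hS _ => hS ▸ singletons S⟩ ?_
  intro k hk
  obtain ⟨P, hPk, hP⟩ := hk X card_X generalPosition_X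
  exact hPk ▸ four_le_card P hP

end Pool.Agent.Results.MP_062f91_co.ElevenPoints
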